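import Pool.Agent.Helper38.UN.St

/-!
# Project UN, module ROW: rows of the charts
-/

set_option autoImplicit false

noncomputable section

namespace Pool.Agent.Helper8.UN38

open Pool.Agent.Helper71.UN Pool.Agent.Helper38.UN
open Set Filter Topology Matrix
open scoped ContDiff ComplexConjugate

private theorem sp_ne {κ J : Type} {n : ℕ} {N : Nw κ J n} {S : Finset ℤ} {r₁ r₂ : ℝ}
    (h : NwOK N S r₁ r₂) (j : J) : N.sp j true - N.sp j false ≠ 0 ∧
      N.sp j false - N.sp j true ≠ 0 := by
  have h1 : N.sp j true ≠ N.sp j false := by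
    intro h2
    unfold Nw.sp at h2
    simp only [if_true, Bool.false_eq_true, if_false] at h2
    exact h.rab j (h.inj _ _ _ _ h2).2.symm
  exact ⟨sub_ne_zero.2 h1, sub_ne_zero.2 h1.symm⟩

open Classical in
private theorem two_f (A B : ℂ) (hAB : B - A ≠ 0) (x y : ℝ) (u : ℂ) :
    (if u = A - A then x else 0) + (if u = B - A then y else 0)
      = if u = 0 then x else if u = B - A then y else 0 := by
  rw [sub_self]
  by_cases h : u = 0
  · subst h
    rw [if_pos rfl, if_neg hAB.symm, if_pos rfl, add_zero]
  · rw [if_neg h, if_neg h, zero_add]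

open Classical in
private theorem two_t (A B : ℂ) (hAB : A - B ≠ 0) (x y : ℝ) (u : ℂ) :
    (if u = A - B then x else 0) + (if u = B - B then y else 0)
      = if u = 0 then y else if u = A - B then x else 0 := by
  rw [add_comm, two_f B A hAB]

theorem hROW : StROW := by
  intro κ J _ _ n N Γ S r₁ r₂ M R₀ r ε h hM hε
  refine ⟨?_, ?_, ?_, ?_⟩
  · intro m a x l u
    unfold Chart.row prow pur
    have ha : a = 0 := Subsingleton.elim _ _
    subst ha
    simp only [sub_self, Matrix.of_apply, Finset.univ_unique,
      Finset.sum_singleton]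
    by_cases h1 : u = 0 <;> by_cases h2 : l = m <;> simp [h1, h2]
  · intro j a x l u
    obtain ⟨hv1, hv2⟩ := sp_ne h j
    have e : (tube N r ε j).row a x l u
        = ∑ b : Fin 2, if u = N.sp j (bo b) - N.sp j (bo a) then
          wm (N.lp j) (N.lq j) (N.e j) (ang N ε j (x - N.sp j (bo a))) l (bo a) (bo b) else 0 :=
      rfl
    rw [e, Fin.sum_univ_two]
    have b0 : bo 0 = false := by simp [bo]
    have b1 : bo 1 = true := by simp [bo]
    unfold wrow
    fin_cases a
    · simp only [Fin.zero_eta, b0, b1, Bool.not_false]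
      exact two_f _ _ hv1 _ _ u
    · simp only [Fin.mk_one, b0, b1, Bool.not_true]
      exact two_t _ _ hv2 _ _ u
  · intro j b z l u hR ht hh1
    obtain ⟨hv1, hv2⟩ := sp_ne h j
    have hray := (hM (N.cls j)).ray j rfl (z / (ε : ℂ)) hR
      (by rw [tt_div]; exact div_pos ht hε)
      (by rw [hh_div, abs_div, abs_of_pos hε, div_le_one hε]; exact hh1) l b
    have e : (disc N M r ε (N.cls j)).row (if b then N.rb j else N.ra j) (N.sp j b + z) l u
        = ∑ b' : Fin n, if u = N.pos (N.cls j) b' - N.sp j b then
          M (N.cls j) ((N.sp j b + z - N.sp j b) / (ε : ℂ)) l (if b then N.rb j else N.ra j) b'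
            else 0 := rfl
    rw [e, add_sub_cancel_left]
    simp only [hray]
    rw [Fintype.sum_eq_add (N.ra j) (N.rb j) (h.rab j) (fun x hx => by
      rw [if_neg hx.1, if_neg hx.2, ite_self])]
    rw [if_pos rfl, if_neg (h.rab j).symm, if_pos rfl]
    have ea : N.pos (N.cls j) (N.ra j) = N.sp j false := rfl
    have eb : N.pos (N.cls j) (N.rb j) = N.sp j true := rfl
    rw [ea, eb, hh_div]
    unfold wrow ang
    cases b
    · exact two_f _ _ hv1 _ _ u
    · exact two_t _ _ hv2 _ _ u
  · intro c a z l u hR hj
    have hp := (hM c).pure a (z / (ε : ℂ)) hR (fun j hc hab hcon => hj j hc hab ⟨by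
      have := hcon.1
      rw [tt_div] at this
      exact (div_pos_iff_of_pos_right hε).1 this, by
      have := hcon.2
      rw [hh_div, abs_div, abs_of_pos hε, div_le_one hε] at this
      exact this⟩) l
    have e : (disc N M r ε c).row a (N.pos c a + z) l u
        = ∑ b : Fin n, if u = N.pos c b - N.pos c a then
          M c ((N.pos c a + z - N.pos c a) / (ε : ℂ)) l a b else 0 := rfl
    rw [e, add_sub_cancel_left]
    simp only [hp]
    rw [Finset.sum_eq_single a (fun b _ hb => by simp [hb]) (fun hh => absurd (Finset.mem_univ a) hh)]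
    unfold prow
    rw [sub_self]
    by_cases h1 : u = 0 <;> by_cases h2 : l = N.nu c a (z / (ε : ℂ)) <;> simp [h1, h2]

end Pool.Agent.Helper8.UN38
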