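import Pool.Agent.Helper56.UN.St

/-!
# Project UN, module RE: powers of the root are not real
-/

set_option autoImplicit false

namespace Helper8.UN

open Pool.Agent.Helper56.UN Pool.Agent.Helper71.UN
open Pool.Agent.Helper56.FM (Gq)

theorem pow_form (β : ℂ) (p q r : ℚ) (h : β ^ 3 + (p : ℂ) * β ^ 2 + (q : ℂ) * β + (r : ℂ) = 0)
    (n : ℕ) : ∃ x y z : ℚ, β ^ n = (x : ℂ) + (y : ℂ) * β + (z : ℂ) * β ^ 2 := by
  induction n with
  | zero => exact ⟨1, 0, 0, by simp⟩
  | succ n ih =>
    obtain ⟨x, y, z, e⟩ := ih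
    refine ⟨-(z * r), x - z * q, y - z * p, ?_⟩
    rw [pow_succ, e]
    push_cast
    linear_combination (z : ℂ) * h

theorem m_RE : StRE := by
  intro β p q r t h n hn him
  obtain ⟨x, y, z, e⟩ := pow_form β p q r h.cub n
  have e1 : (β ^ n).im = (y : ℝ) * β.im + (z : ℝ) * (2 * β.re * β.im) := by
    rw [e]
    simp only [Complex.add_im, Complex.mul_im, Complex.ratCast_im, Complex.ratCast_re, pow_two]
    ring
  rw [him] at e1
  have e2 : β.im * ((y : ℝ) + 2 * z * β.re) = 0 := by linarith
  rcases mul_eq_zero.1 e2 with h1 | h1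
  · exact h.im h1
  by_cases hz : z = 0
  · rw [hz] at h1
    have hy : y = 0 := by
      have : (y : ℝ) = 0 := by simpa using h1
      exact_mod_cast this
    apply h.nrat n hn x
    rw [e, hy, hz]
    simp
  · have hz' : (z : ℝ) ≠ 0 := by exact_mod_cast hz
    have h2 : t = ((-p + y / z : ℚ) : ℝ) := by
      push_cast
      have h3 := h.tr
      field_simp
      linear_combination (z : ℝ) * h3 - h1
    have h4 := h.real
    rw [h2] at h4
    exact h.irr (-p + y / z) (by exact_mod_cast h4)

end Helper8.UN
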